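import Pool.Agent.H.MP_b4aa87_al.Low

set_option autoImplicit false

namespace Pool.Agent.Results.MP_b4aa87_al.Intermediate

def ball {G : Type} [Group G] (S : Finset G) (n : ℕ) : Set G :=
  {g | ∃ l : List G, l.length ≤ n ∧ (∀ x ∈ l, x ∈ S ∨ x⁻¹ ∈ S) ∧ l.prod = g}

noncomputable def alpha {G : Type} [Group G] (S : Finset G) (n : ℕ) : ℕ :=
  ((fun g : G => MulAction.orbit (MulAut G) g) '' ball S n).ncard

def Dom (f g : ℕ → ℕ) : Prop := ∃ c : ℕ, 1 ≤ c ∧ ∀ n, f n ≤ c * g (c * n + c) + c

open Pool.Agent.H.MP_b4aa87_al Equiv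

theorem result : ∃ (G : Type) (_ : Group G) (S : Finset G),
    Subgroup.closure (S : Set G) = ⊤ ∧ (∀ n, (ball S n).Finite) ∧
    (∀ d : ℕ, ¬ Dom (alpha S) fun n => n ^ d) ∧ ¬ Dom (fun n => 2 ^ n) (alpha S) := by
  classical
  choose xf hx1 hx2 using many_primes
  let s : ℕ → ℕ := fun k => Nat.rec 4 (fun k s => s + xf k s * (xf k s + 1) + 4) k
  let N : ℕ → ℕ := fun k => xf k (s k) * (xf k (s k) + 1)
  have hs : ∀ k, s (k + 1) = s k + N k + 4 := fun k => rfl
  have hs1 : ∀ k, 4 ≤ s k ∧ ∀ i < k, N i + 4 ≤ s k := by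
    intro k
    induction k with
    | zero => exact ⟨le_rfl, fun i hi => absurd hi (Nat.not_lt_zero i)⟩
    | succ k ih =>
      refine ⟨by rw [hs]; omega, fun i hi => ?_⟩
      rw [hs]
      rcases Nat.lt_succ_iff_lt_or_eq.1 hi with h | rfl
      · have := ih.2 i h; omega
      · omega
  let H : Subgroup (Perm (X N)) := Subgroup.closure (Set.range (gen N))
  let gG : L → H := fun l => ⟨gen N l, Subgroup.subset_closure ⟨l, rfl⟩⟩
  let S : Finset H := Finset.univ.image gG
  have hcoe : ∀ w : List L, (((w.map gG).prod : H) : Perm (X N)) = ev N w := by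
    intro w
    induction w with
    | nil => rfl
    | cons l w ih => rw [List.map_cons, List.prod_cons, Subgroup.coe_mul, ih, ev_cons]
  have hb1 : ∀ n (w : List L), w.length ≤ n → (w.map gG).prod ∈ ball S n := by
    intro n w hw
    refine ⟨w.map gG, by simpa using hw, fun x hx => Or.inl ?_, rfl⟩
    obtain ⟨l, -, rfl⟩ := List.mem_map.1 hx
    exact Finset.mem_image_of_mem _ (Finset.mem_univ l)
  have hb2 : ∀ n, ∀ g ∈ ball S n, (g : Perm (X N)) ∈ B N (6 * n) := by
    rintro n _ ⟨l, h1, h2, rfl⟩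
    induction l generalizing n with
    | nil => exact ⟨[], Nat.zero_le _, rfl⟩
    | cons x l ih =>
      obtain ⟨w, hw, e⟩ := ih l.length le_rfl fun y hy => h2 y (List.mem_cons_of_mem _ hy)
      obtain ⟨a, ha⟩ : ∃ a, gen N a = (x : Perm (X N)) := by
        rcases h2 x List.mem_cons_self with h | h
        · obtain ⟨a, -, rfl⟩ := Finset.mem_image.1 h
          exact ⟨a, rfl⟩
        · obtain ⟨a, -, e⟩ := Finset.mem_image.1 h
          refine ⟨a, ?_⟩
          have e' : gen N a = (x : Perm (X N))⁻¹ := congrArg Subtype.val e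
          rw [← inv_inv (x : Perm (X N)), ← e']
          exact eq_inv_of_mul_eq_one_left (gen_sq N a)
      refine ⟨a :: w, ?_, by rw [ev_cons, ha, e, List.prod_cons, Subgroup.coe_mul]⟩
      have h3 : wl a ≤ 6 := by
        clear * -
        revert a; decide
      have h4 : wt (a :: w) = wl a + wt w := by simp [wt]
      simp only [List.length_cons] at h1
      omega
  have hfin : ∀ n, (ball S n).Finite := fun n =>
    Set.Finite.of_injOn (hb2 n) Subtype.val_injective.injOn (B_fin N _)
  have hup : ∀ n, alpha S n ≤ (B N (6 * n)).ncard := fun n =>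
    (Set.ncard_image_le (hfin n)).trans
      (Set.ncard_le_ncard_of_injOn _ (hb2 n) Subtype.val_injective.injOn (B_fin N _))
  refine ⟨H, inferInstance, S, ?_, hfin, ?_, ?_⟩
  · rw [← Subgroup.closure_closure_coe_preimage (k := Set.range (gen N))]
    congr 1
    ext x
    simp only [S, Finset.coe_image, Finset.coe_univ, Set.image_univ, Set.mem_range,
      Set.mem_preimage]
    exact exists_congr fun l => Subtype.ext_iff
  · rintro d ⟨c, hc, h⟩
    set k := max c d with hk
    set x := xf k (s k) with hx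
    set n := 3 ^ k * (x * (16 * x ^ 3)) with hn
    set M := (s k).factorial with hM
    let g : Finset ℕ → H := fun A => ((sg^[k] (W x A.toList)).map gG).prod
    have hP : ∀ A ⊆ PP (s k) x, ∀ p ∈ A, p.Prime ∧ s k < p ∧ p ≤ x := by
      intro A hA p hp
      have := hA hp
      simp only [PP, Finset.mem_filter, Nat.mem_primesLE] at this
      exact ⟨this.1.2, this.2, this.1.1⟩
    have hord : ∀ A ⊆ PP (s k) x, orderOf (g A ^ M) = ∏ p ∈ A, p := by
      intro A hA
      have h1 := (order_W (n := N k) (x := x) (Nat.le_add_right _ _) A.toList A.nodup_toList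
        fun p hp => by
          obtain ⟨a, b, c⟩ := hP A hA p (Finset.mem_toList.1 hp)
          exact ⟨a, by have := (hs1 k).1; omega, c⟩).1
      have h2 : A.toList.prod = ∏ p ∈ A, p := by simp
      have hcop : Nat.Coprime (∏ p ∈ A, p) M := by
        apply Nat.Coprime.prod_left
        intro p hp
        obtain ⟨a, b, -⟩ := hP A hA p hp
        rw [a.coprime_iff_not_dvd, hM, a.dvd_factorial]
        omega
      have h3 : ∀ m, orderOf (g A ^ M) ∣ m ↔ (∏ p ∈ A, p) ∣ m := by
        intro m
        rw [orderOf_dvd_iff_pow_eq_one, ← pow_mul, Subtype.ext_iff, Subgroup.coe_pow, hcoe,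
          Subgroup.coe_one, key k N _ _ (nul_W _ _)
            (Dvd.dvd.mul_right ((by decide : 12 ∣ Nat.factorial 4).trans
              (Nat.factorial_dvd_factorial (hs1 k).1)) m)
            (fun i hi => Dvd.dvd.mul_right (Nat.factorial_dvd_factorial ((hs1 k).2 i hi)) m),
          ← orderOf_dvd_iff_pow_eq_one, h1, h2]
        exact hcop.dvd_mul_left
      exact Nat.dvd_antisymm ((h3 _).2 dvd_rfl) ((h3 _).1 dvd_rfl)
    have hlow : 2 ^ (PP (s k) x).card ≤ alpha S n := by
      rw [← Finset.card_powerset, ← Set.ncard_coe_finset]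
      refine Set.ncard_le_ncard_of_injOn (fun A => MulAction.orbit (MulAut H) (g A)) ?_ ?_
        ((hfin n).image _)
      · intro A hA
        have hA : A ⊆ PP (s k) x := Finset.mem_powerset.1 hA
        refine ⟨g A, hb1 n _ ((len_sgk _ _).trans (Nat.mul_le_mul_left _
          ((len_W (hx1 _ _) _ fun p hp => (hP A hA p (Finset.mem_toList.1 hp)).2.2).trans
            (Nat.mul_le_mul_right _ ?_)))), rfl⟩
        rw [Finset.length_toList]
        calc A.card ≤ (Finset.Ioc 0 x).card := Finset.card_le_card fun p hp => by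
              obtain ⟨a, b, c⟩ := hP A hA p hp
              exact Finset.mem_Ioc.2 ⟨a.pos, c⟩
          _ = x := by simp
      · intro A hA A' hA' e
        have hA : A ⊆ PP (s k) x := Finset.mem_powerset.1 hA
        have hA' : A' ⊆ PP (s k) x := Finset.mem_powerset.1 hA'
        obtain ⟨φ, hφ⟩ := MulAction.orbit_eq_iff.1 e
        have hφ : φ (g A') = g A := hφ
        have : ∏ p ∈ A, p = ∏ p ∈ A', p := by
          rw [← hord A hA, ← hord A' hA', ← hφ, ← map_pow, MulEquiv.orderOf_eq]
        rw [← Nat.primeFactors_prod fun p hp => (hP A hA p hp).1, this,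
          Nat.primeFactors_prod fun p hp => (hP A' hA' p hp).1]
    have h1 := hx2 k (s k)
    have h2 := h n
    have hck : c ≤ k := le_max_left _ _
    have h3 : (c * n + c) ^ d ≤ (k * n + k) ^ k :=
      (Nat.pow_le_pow_left (Nat.add_le_add (Nat.mul_le_mul_right _ hck) hck) d).trans
        (Nat.pow_le_pow_right (by omega) (le_max_right _ _))
    have h4 := Nat.mul_le_mul hck h3
    rw [← hx, ← hn] at h1
    simp only at h2
    omega
  · rintro ⟨c, hc, h⟩
    have hc0 : (0:ℝ) < c := by exact_mod_cast hc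
    obtain ⟨C, hC⟩ := subexp (ε := 1 / (18 * c)) (by positivity) N
    have hC0 : 0 ≤ C := by
      have := (Nat.cast_nonneg _).trans (hC 0)
      simpa using this
    have he : Real.exp (1 / 3) ≤ 3 / 2 := by
      have := Real.exp_bound_div_one_sub_of_interval (x := 1 / 3) (by norm_num) (by norm_num)
      linarith
    have hall : ∀ n : ℕ, (4 / 3 : ℝ) ^ n ≤ c * C * (3 / 2) + c := by
      intro n
      have h1 : (2:ℝ) ^ n ≤ c * (B N (6 * (c * n + c))).ncard + c := by
        exact_mod_cast (h n).trans (Nat.add_le_add_right (Nat.mul_le_mul_left _ (hup _)) _)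
      have h2 := hC (6 * (c * n + c))
      have h3 : 1 / (18 * (c:ℝ)) * ((6 * (c * n + c) : ℕ) : ℝ) = ((n + 1 : ℕ) : ℝ) * (1 / 3) := by
        push_cast; field_simp; ring
      rw [h3, Real.exp_nat_mul] at h2
      have h4 : Real.exp (1 / 3) ^ (n + 1) ≤ (3 / 2) ^ (n + 1) :=
        pow_le_pow_left₀ (Real.exp_pos _).le he _
      have h5 : (1:ℝ) ≤ (3 / 2) ^ n := one_le_pow₀ (by norm_num)
      have h6 : (2:ℝ) ^ n = (4 / 3) ^ n * (3 / 2) ^ n := by rw [← mul_pow]; norm_num
      have h7 := mul_le_mul_of_nonneg_left (h2.trans (mul_le_mul_of_nonneg_left h4 hC0)) hc0.le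
      apply le_of_mul_le_mul_right _ (lt_of_lt_of_le one_pos h5)
      rw [← h6, pow_succ] at *
      nlinarith
    obtain ⟨n, hn⟩ := pow_unbounded_of_one_lt (c * C * (3 / 2) + c) (show (1:ℝ) < 4 / 3 by norm_num)
    exact absurd (hall n) (not_le.2 hn)

end Pool.Agent.Results.MP_b4aa87_al.Intermediate
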